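import Pool.Agent.Y999.ST.Stm

/-!
# JOB ST-PATH: for good clocks the passage times are given by the last-passage recursion
-/

namespace Pool.Agent.Y285.ST

open Pool.Agent.Y999.ST
open scoped ENNReal

lemma arr_succ (g : ℕ → ℝ) (n : ℕ) : arr g (n + 1) = arr g n + g (n + 1) := by
  simp only [arr]
  rw [Finset.sum_range_succ]

lemma arr_zero (g : ℕ → ℝ) : arr g 0 = g 0 := by simp [arr]

lemma arr_strictMono {g : ℕ → ℝ} (hp : ∀ n, 0 < g n) : StrictMono (arr g) :=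
  strictMono_nat_of_lt_succ fun n => by
    rw [arr_succ]
    linarith [hp (n + 1)]

lemma zero_le_of_rings {g : ℕ → ℝ} (hp : ∀ n, 0 < g n) {u : ℝ} (hu : u ∈ rings g) :
    g 0 ≤ u := by
  obtain ⟨n, rfl⟩ := hu
  rw [← arr_zero g]
  exact (arr_strictMono hp).monotone (Nat.zero_le n)

lemma rings_finite {g : ℕ → ℝ} (hp : ∀ n, 0 < g n) (hu : ∀ t : ℝ, ∃ n, t < arr g n) (t : ℝ) :
    (rings g ∩ Set.Iic t).Finite := by
  obtain ⟨n, hn⟩ := hu t
  apply ((Set.finite_Iio n).image (arr g)).subset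
  rintro _ ⟨⟨m, rfl⟩, hm⟩
  exact ⟨m, (arr_strictMono hp).lt_iff_lt.1 (lt_of_le_of_lt hm hn), rfl⟩

/-- Chaining a transitive relation through finitely many special times. -/
lemma chain {S : Set ℝ} (hS : ∀ t, (S ∩ Set.Iic t).Finite) (r : ℝ → ℝ → Prop)
    (htr : ∀ a b c, r a b → r b c → r a c) {s t : ℝ} (hst : s < t)
    (h : ∀ a b, s ≤ a → a < b → b ≤ t → (∀ u, a < u → u < b → u ∉ S) → r a b) : r s t := by
  have key : ∀ n : ℕ, ∀ t', s < t' → t' ≤ t → (S ∩ Set.Ioo s t').ncard = n → r s t' := by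
    intro n
    induction n using Nat.strong_induction_on with
    | _ n ih =>
      intro t' h1 h2 hn
      have hfin : (S ∩ Set.Ioo s t').Finite :=
        (hS t').subset (by rintro x ⟨hx, hx2⟩; exact ⟨hx, hx2.2.le⟩)
      rcases Set.eq_empty_or_nonempty (S ∩ Set.Ioo s t') with he | hne
      · exact h s t' le_rfl h1 h2 (fun u hu1 hu2 hu3 => by
          have : u ∈ (S ∩ Set.Ioo s t') := ⟨hu3, hu1, hu2⟩
          rw [he] at this
          exact this)
      · obtain ⟨u, hu, humax⟩ := Set.exists_max_image _ id hfin hne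
        have hlt : (S ∩ Set.Ioo s u).ncard < n := by
          rw [← hn]
          apply Set.ncard_lt_ncard _ hfin
          constructor
          · rintro x ⟨hx, hx2⟩
            exact ⟨hx, hx2.1, hx2.2.trans hu.2.2⟩
          · intro hsub
            exact lt_irrefl _ (hsub hu).2.2
        refine htr s u t' (ih _ hlt u hu.2.1 (hu.2.2.le.trans h2) rfl) ?_
        exact h u t' hu.2.1.le hu.2.2 h2 (fun v hv1 hv2 hv3 =>
          not_lt.2 (humax v ⟨hv3, hu.2.1.trans hv1, hv2⟩) hv1)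
  exact key _ t hst le_rfl rfl

lemma gap {S : Set ℝ} (hS : ∀ t, (S ∩ Set.Iic t).Finite) {s u : ℝ} (hsu : s < u) :
    ∃ s₀, s ≤ s₀ ∧ s₀ < u ∧ ∀ v, s₀ < v → v < u → v ∉ S := by
  have hfin : (S ∩ Set.Ioo s u).Finite :=
    (hS u).subset (by rintro x ⟨hx, hx2⟩; exact ⟨hx, hx2.2.le⟩)
  rcases Set.eq_empty_or_nonempty (S ∩ Set.Ioo s u) with he | hne
  · exact ⟨s, le_rfl, hsu, fun v h1 h2 h3 => by
      have : v ∈ (S ∩ Set.Ioo s u) := ⟨h3, h1, h2⟩
      rw [he] at this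
      exact this⟩
  · obtain ⟨w, hw, hmax⟩ := Set.exists_max_image _ id hfin hne
    exact ⟨w, hw.2.1.le, hw.2.2, fun v h1 h2 h3 =>
      not_lt.2 (hmax v ⟨h3, hw.2.1.trans h1, h2⟩) h1⟩

/-- All rings of the edges `p, …, q`. -/
def SS (g : ℤ → ℕ → ℝ) (p q : ℤ) : Set ℝ := ⋃ k ∈ Set.Icc p q, rings (g k)

lemma mem_SS {g : ℤ → ℕ → ℝ} {p q : ℤ} {u : ℝ} :
    u ∈ SS g p q ↔ ∃ k, p ≤ k ∧ k ≤ q ∧ u ∈ rings (g k) := by
  simp [SS, and_assoc]

lemma SS_finite {g : ℤ → ℕ → ℝ} (hg : GoodClocks g) (p q : ℤ) (t : ℝ) :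
    (SS g p q ∩ Set.Iic t).Finite := by
  have : SS g p q ∩ Set.Iic t = ⋃ k ∈ Set.Icc p q, (rings (g k) ∩ Set.Iic t) := by
    ext u
    simp only [SS, Set.mem_inter_iff, Set.mem_iUnion, Set.mem_Iic, exists_prop]
    constructor
    · rintro ⟨⟨k, hk, hu⟩, ht⟩
      exact ⟨k, hk, hu, ht⟩
    · rintro ⟨k, hk, hu, ht⟩
      exact ⟨⟨k, hk, hu⟩, ht⟩
  rw [this]
  exact (Set.finite_Icc p q).biUnion fun k _ => rings_finite (hg.pos k) (hg.unb k) t

/-- Number of particles of color at most `A` in the window `(p, q]`. -/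
noncomputable def cnt (ζ : ℝ → ℤ → ℤ) (A p q : ℤ) (s : ℝ) : ℕ :=
  ((Finset.Ioc p q).filter (fun x => ζ s x ≤ A)).card

lemma cnt_congr {ζ : ℝ → ℤ → ℤ} {A p q : ℤ} {a b : ℝ}
    (h : ∀ x, p < x → x ≤ q → ζ b x = ζ a x) : cnt ζ A p q b = cnt ζ A p q a := by
  unfold cnt
  congr 1
  apply Finset.filter_congr
  intro x hx
  rw [Finset.mem_Ioc] at hx
  rw [h x hx.1 hx.2]

lemma cnt_swap {ζ : ℝ → ℤ → ℤ} {A p q k : ℤ} {a b : ℝ} (hk : p < k) (hkq : k < q)
    (h1 : ζ b k = ζ a (k + 1)) (h2 : ζ b (k + 1) = ζ a k)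
    (h3 : ∀ x, p < x → x ≤ q → x ≠ k → x ≠ k + 1 → ζ b x = ζ a x) :
    cnt ζ A p q b = cnt ζ A p q a := by
  have hmem : ∀ x, p < x → x ≤ q → p < Equiv.swap k (k + 1) x ∧ Equiv.swap k (k + 1) x ≤ q ∧
      ζ b x = ζ a (Equiv.swap k (k + 1) x) := by
    intro x hx1 hx2
    by_cases hxk : x = k
    · subst hxk
      rw [Equiv.swap_apply_left]
      exact ⟨by omega, by omega, h1⟩
    · by_cases hxk1 : x = k + 1
      · subst hxk1
        rw [Equiv.swap_apply_right]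
        exact ⟨by omega, by omega, h2⟩
      · rw [Equiv.swap_apply_of_ne_of_ne hxk hxk1]
        exact ⟨hx1, hx2, h3 x hx1 hx2 hxk hxk1⟩
  unfold cnt
  apply Finset.card_bij (fun x _ => Equiv.swap k (k + 1) x)
  · intro x hx
    rw [Finset.mem_filter, Finset.mem_Ioc] at hx ⊢
    obtain ⟨h4, h5, h6⟩ := hmem x hx.1.1 hx.1.2
    exact ⟨⟨h4, h5⟩, h6 ▸ hx.2⟩
  · intro x _ y _ hxy
    exact (Equiv.swap k (k + 1)).injective hxy
  · intro y hy
    rw [Finset.mem_filter, Finset.mem_Ioc] at hy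
    obtain ⟨h4, h5, h6⟩ := hmem y hy.1.1 hy.1.2
    refine ⟨Equiv.swap k (k + 1) y, ?_, Equiv.swap_apply_self _ _ _⟩
    rw [Finset.mem_filter, Finset.mem_Ioc]
    refine ⟨⟨h4, h5⟩, ?_⟩
    obtain ⟨_, _, h9⟩ := hmem _ h4 h5
    rw [h9, Equiv.swap_apply_self]
    exact hy.2

lemma window {g : ℤ → ℕ → ℝ} (hg : GoodClocks g) {ζ : ℝ → ℤ → ℤ}
    (hζ : IsColoredTASEP (fun k => rings (g k)) ζ) (A : ℤ) {p q : ℤ} {s s' : ℝ}
    (h0 : 0 ≤ s) (hs : s ≤ s') (hp : ∀ u, s < u → u ≤ s' → u ∉ rings (g p))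
    (hq : ∀ u, s < u → u ≤ s' → u ∉ rings (g q)) :
    cnt ζ A p q s' = cnt ζ A p q s := by
  rcases hs.eq_or_lt with rfl | hlt
  · rfl
  refine chain (SS_finite hg p q) (fun a b => cnt ζ A p q b = cnt ζ A p q a)
    (fun a b c h1 h2 => h2.trans h1) hlt ?_
  intro a b ha hab hb hsil
  have hsil' : ∀ x, p < x → x ≤ q → (b ∉ rings (g (x - 1)) ∧ b ∉ rings (g x)) →
      ζ b x = ζ a x := by
    intro x hx1 hx2 hbx
    refine hζ.stay x a b (h0.trans ha) hab.le ?_
    intro u hu1 hu2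
    rcases hu2.eq_or_lt with rfl | hu3
    · exact hbx
    · have h := hsil u hu1 hu3
      rw [mem_SS] at h
      push Not at h
      exact ⟨h (x - 1) (by omega) (by omega), h x (by omega) (by omega)⟩
  by_cases hbS : b ∈ SS g p q
  · rw [mem_SS] at hbS
    obtain ⟨k, hpk, hkq, hk⟩ := hbS
    have hpk' : p < k := by
      rcases hpk.eq_or_lt with rfl | h
      · exact absurd hk (hp b (lt_of_le_of_lt ha hab) hb)
      · exact h
    have hkq' : k < q := by
      rcases hkq.eq_or_lt with rfl | h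
      · exact absurd hk (hq b (lt_of_le_of_lt ha hab) hb)
      · exact h
    have hdis : ∀ j, j ≠ k → b ∉ rings (g j) := fun j hj hbj =>
      Set.disjoint_left.1 (hg.dis j k hj) hbj hk
    have hoth : ∀ x, p < x → x ≤ q → x ≠ k → x ≠ k + 1 → ζ b x = ζ a x := by
      intro x hx1 hx2 hxk hxk1
      exact hsil' x hx1 hx2 ⟨hdis _ (by omega), hdis _ hxk⟩
    have hr := hζ.ring k a b (h0.trans ha) hab hk (hdis _ (by omega)) (hdis _ (by omega)) (by
      intro u hu1 hu2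
      have h := hsil u hu1 hu2
      rw [mem_SS] at h
      push Not at h
      exact ⟨h (k - 1) (by omega) (by omega), h k (by omega) (by omega),
        h (k + 1) (by omega) (by omega)⟩)
    by_cases hlt' : ζ a k < ζ a (k + 1)
    · obtain ⟨h1, h2⟩ := hr.1 hlt'
      exact cnt_swap hpk' hkq' h1 h2 hoth
    · obtain ⟨h1, h2⟩ := hr.2 hlt'
      apply cnt_congr
      intro x hx1 hx2
      by_cases hxk : x = k
      · rw [hxk]; exact h1
      · by_cases hxk1 : x = k + 1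
        · rw [hxk1]; exact h2
        · exact hoth x hx1 hx2 hxk hxk1
  · apply cnt_congr
    intro x hx1 hx2
    rw [mem_SS] at hbS
    push Not at hbS
    exact hsil' x hx1 hx2 ⟨hbS _ (by omega) (by omega), hbS _ (by omega) (by omega)⟩

lemma silent_of {g : ℤ → ℕ → ℝ} (hg : GoodClocks g) {j : ℤ} {t : ℝ} (ht : t < g j 0) {u : ℝ}
    (hu : u ≤ t) : u ∉ rings (g j) := fun h =>
  not_le.2 (lt_of_le_of_lt hu ht) (zero_le_of_rings (hg.pos j) h)

lemma far {g : ℤ → ℕ → ℝ} (hg : GoodClocks g) {ζ : ℝ → ℤ → ℤ}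
    (hζ : IsColoredTASEP (fun k => rings (g k)) ζ) {A j : ℤ} {t s : ℝ} (hA : A ≤ j)
    (ht : t < g j 0) (h0 : 0 ≤ s) (hs : s ≤ t) {x : ℤ} (hx : j < x) : A < ζ s x := by
  obtain ⟨j', hj', hj'2⟩ := hg.silR t x
  have hw := window hg hζ A (p := j) (q := j') le_rfl h0
    (fun u _ hu2 => silent_of hg ht (hu2.trans hs))
    (fun u _ hu2 => silent_of hg hj'2 (hu2.trans hs))
  have h00 : cnt ζ A j j' 0 = 0 := by
    unfold cnt
    rw [Finset.card_eq_zero, Finset.filter_eq_empty_iff]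
    intro y hy
    rw [Finset.mem_Ioc] at hy
    rw [hζ.init]
    omega
  rw [h00] at hw
  unfold cnt at hw
  rw [Finset.card_eq_zero, Finset.filter_eq_empty_iff] at hw
  exact not_le.1 (hw (Finset.mem_Ioc.2 ⟨hx, hj'⟩))

/-- The height function. -/
noncomputable def NN (ζ : ℝ → ℤ → ℤ) (A e : ℤ) (s : ℝ) : ℕ := {x : ℤ | e < x ∧ ζ s x ≤ A}.ncard

lemma set_eq {g : ℤ → ℕ → ℝ} (hg : GoodClocks g) {ζ : ℝ → ℤ → ℤ}
    (hζ : IsColoredTASEP (fun k => rings (g k)) ζ) {A j : ℤ} {t s : ℝ} (hA : A ≤ j)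
    (ht : t < g j 0) (h0 : 0 ≤ s) (hs : s ≤ t) (e : ℤ) :
    {x : ℤ | e < x ∧ ζ s x ≤ A} = ↑((Finset.Ioc e j).filter (fun x => ζ s x ≤ A)) := by
  ext x
  simp only [Set.mem_ofPred_eq, Finset.coe_filter, Finset.mem_Ioc]
  constructor
  · rintro ⟨h1, h2⟩
    refine ⟨⟨h1, ?_⟩, h2⟩
    by_contra h
    exact not_le.2 (far hg hζ hA ht h0 hs (not_le.1 h)) h2
  · rintro ⟨⟨h1, _⟩, h2⟩
    exact ⟨h1, h2⟩

lemma NN_eq {g : ℤ → ℕ → ℝ} (hg : GoodClocks g) {ζ : ℝ → ℤ → ℤ}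
    (hζ : IsColoredTASEP (fun k => rings (g k)) ζ) {A j : ℤ} {t s : ℝ} (hA : A ≤ j)
    (ht : t < g j 0) (h0 : 0 ≤ s) (hs : s ≤ t) (e : ℤ) : NN ζ A e s = cnt ζ A e j s := by
  unfold NN cnt
  rw [set_eq hg hζ hA ht h0 hs e, Set.ncard_coe_finset]

lemma NN_fin {g : ℤ → ℕ → ℝ} (hg : GoodClocks g) {ζ : ℝ → ℤ → ℤ}
    (hζ : IsColoredTASEP (fun k => rings (g k)) ζ) {A : ℤ} {s : ℝ} (h0 : 0 ≤ s) (e : ℤ) :
    {x : ℤ | e < x ∧ ζ s x ≤ A}.Finite := by
  obtain ⟨j, hj, hj2⟩ := hg.silR s A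
  rw [set_eq hg hζ hj hj2 h0 le_rfl e]
  exact Finset.finite_toSet _

lemma NN_zero {g : ℤ → ℕ → ℝ} {ζ : ℝ → ℤ → ℤ}
    (hζ : IsColoredTASEP (fun k => rings (g k)) ζ) (A e : ℤ) : NN ζ A e 0 = (A - e).toNat := by
  unfold NN
  have : {x : ℤ | e < x ∧ ζ 0 x ≤ A} = ↑(Finset.Ioc e A) := by
    ext x
    simp [hζ.init]
  rw [this, Set.ncard_coe_finset, Int.card_Ioc]

lemma NN_one {g : ℤ → ℕ → ℝ} (hg : GoodClocks g) {ζ : ℝ → ℤ → ℤ}
    (hζ : IsColoredTASEP (fun k => rings (g k)) ζ) {A e : ℤ} {s s' : ℝ} (h0 : 0 ≤ s)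
    (hs : s ≤ s') (he : ∀ u, s < u → u ≤ s' → u ∉ rings (g e)) : NN ζ A e s' = NN ζ A e s := by
  obtain ⟨j, hj, hj2⟩ := hg.silR s' A
  rw [NN_eq hg hζ hj hj2 (h0.trans hs) le_rfl e, NN_eq hg hζ hj hj2 h0 hs e]
  exact window hg hζ A h0 hs he (fun u _ hu => silent_of hg hj2 hu)

lemma NN_three {g : ℤ → ℕ → ℝ} (hg : GoodClocks g) {ζ : ℝ → ℤ → ℤ}
    (hζ : IsColoredTASEP (fun k => rings (g k)) ζ) {A e : ℤ} {s : ℝ} (h0 : 0 ≤ s) :
    NN ζ A e s = NN ζ A (e + 1) s + if ζ s (e + 1) ≤ A then 1 else 0 := by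
  have hf := NN_fin hg hζ (A := A) h0 (e + 1)
  unfold NN
  split_ifs with h
  · rw [← Set.ncard_insert_of_notMem (a := e + 1) (by simp) hf]
    congr 1
    ext x
    simp only [Set.mem_ofPred_eq, Set.mem_insert_iff]
    constructor
    · rintro ⟨h1, h2⟩
      rcases (show e + 1 ≤ x from h1).eq_or_lt with h3 | h3
      · exact Or.inl h3.symm
      · exact Or.inr ⟨h3, h2⟩
    · rintro (rfl | ⟨h1, h2⟩)
      · exact ⟨by omega, h⟩
      · exact ⟨by omega, h2⟩
  · rw [Nat.add_zero]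
    congr 1
    ext x
    simp only [Set.mem_ofPred_eq]
    constructor
    · rintro ⟨h1, h2⟩
      rcases (show e + 1 ≤ x from h1).eq_or_lt with h3 | h3
      · rw [← h3] at h2
        exact absurd h2 h
      · exact ⟨h3, h2⟩
    · rintro ⟨h1, h2⟩
      exact ⟨by omega, h2⟩

lemma NN_two {g : ℤ → ℕ → ℝ} (hg : GoodClocks g) {ζ : ℝ → ℤ → ℤ}
    (hζ : IsColoredTASEP (fun k => rings (g k)) ζ) {A e : ℤ} {s u : ℝ} (h0 : 0 ≤ s) (hsu : s < u)
    (hu : u ∈ rings (g e)) (hsil : ∀ v, s < v → v < u → v ∉ SS g (e - 1) (e + 1)) :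
    NN ζ A e u = NN ζ A e s + if ζ s e ≤ A ∧ A < ζ s (e + 1) then 1 else 0 := by
  have hdis : ∀ j, j ≠ e → u ∉ rings (g j) := fun j hj hbj =>
    Set.disjoint_left.1 (hg.dis j e hj) hbj hu
  have h1 : NN ζ A (e + 1) u = NN ζ A (e + 1) s := by
    apply NN_one hg hζ h0 hsu.le
    intro v hv1 hv2
    rcases hv2.eq_or_lt with rfl | hv3
    · exact hdis _ (by omega)
    · have h := hsil v hv1 hv3
      rw [mem_SS] at h
      push Not at h
      exact h _ (by omega) (by omega)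
  have h2 := NN_three hg hζ (A := A) (e := e) (h0.trans hsu.le)
  have h3 := NN_three hg hζ (A := A) (e := e) h0
  have hr := hζ.ring e s u h0 hsu hu (hdis _ (by omega)) (hdis _ (by omega)) (by
    intro v hv1 hv2
    have h := hsil v hv1 hv2
    rw [mem_SS] at h
    push Not at h
    exact ⟨h (e - 1) (by omega) (by omega), h e (by omega) (by omega),
      h (e + 1) (by omega) (by omega)⟩)
  rw [h2, h3, h1]
  by_cases hlt : ζ s e < ζ s (e + 1)
  · rw [(hr.1 hlt).2]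
    split_ifs <;> omega
  · rw [(hr.2 hlt).2]
    split_ifs <;> omega

lemma NN_mono {g : ℤ → ℕ → ℝ} (hg : GoodClocks g) {ζ : ℝ → ℤ → ℤ}
    (hζ : IsColoredTASEP (fun k => rings (g k)) ζ) {A e : ℤ} {s t : ℝ} (h0 : 0 ≤ s)
    (hst : s ≤ t) : NN ζ A e s ≤ NN ζ A e t := by
  rcases hst.eq_or_lt with rfl | hlt
  · rfl
  refine chain (SS_finite hg (e - 1) (e + 1)) (fun a b => NN ζ A e a ≤ NN ζ A e b)
    (fun a b c h1 h2 => h1.trans h2) hlt ?_
  intro a b ha hab _ hsil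
  by_cases hb : b ∈ rings (g e)
  · have := NN_two hg hζ (A := A) (h0.trans ha) hab hb hsil
    show NN ζ A e a ≤ NN ζ A e b
    omega
  · refine (NN_one hg hζ (h0.trans ha) hab.le ?_).ge
    intro v hv1 hv2
    rcases hv2.eq_or_lt with rfl | hv3
    · exact hb
    · have h := hsil v hv1 hv3
      rw [mem_SS] at h
      push Not at h
      exact h _ (by omega) (by omega)

lemma key {g : ℤ → ℕ → ℝ} (hg : GoodClocks g) {ζ : ℝ → ℤ → ℤ}
    (hζ : IsColoredTASEP (fun k => rings (g k)) ζ) {A e : ℤ} {B C : ℕ} (he : e = A + B - C)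
    {t : ℝ} (ht : 0 ≤ t) :
    C + 1 ≤ NN ζ A e t ↔ ∃ u ∈ rings (g e), u ≤ t ∧ ∃ s, 0 ≤ s ∧ s < u ∧
      C + 1 ≤ NN ζ A (e - 1) s ∧ C ≤ NN ζ A (e + 1) s := by
  constructor
  · intro h
    by_contra hcon
    have hz : NN ζ A e 0 ≤ C := by
      rw [NN_zero hζ]
      omega
    rcases ht.eq_or_lt with rfl | hlt
    · omega
    have := chain (SS_finite hg (e - 1) (e + 1))
      (fun a b => NN ζ A e a ≤ C → NN ζ A e b ≤ C)
      (fun a b c h1 h2 h3 => h2 (h1 h3)) hlt (by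
        intro a b ha hab hbt hsil hna
        by_cases hb : b ∈ rings (g e)
        · by_contra hnb
          apply hcon
          have h2 := NN_two hg hζ (A := A) ha hab hb hsil
          have h3 := NN_three hg hζ (A := A) (e := e) ha
          have h4 := NN_three hg hζ (A := A) (e := e - 1) ha
          rw [sub_add_cancel] at h4
          have h5 : ζ a e ≤ A ∧ A < ζ a (e + 1) := by
            by_contra h6
            rw [if_neg h6] at h2
            omega
          rw [if_pos h5] at h2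
          rw [if_pos h5.1] at h4
          rw [if_neg (not_le.2 h5.2)] at h3
          exact ⟨b, hb, hbt, a, ha, hab, by omega, by omega⟩
        · rw [NN_one hg hζ ha hab.le]
          · exact hna
          · intro v hv1 hv2
            rcases hv2.eq_or_lt with rfl | hv3
            · exact hb
            · have h := hsil v hv1 hv3
              rw [mem_SS] at h
              push Not at h
              exact h _ (by omega) (by omega)) hz
    omega
  · rintro ⟨u, hu, hut, s, hs, hsu, h1, h2⟩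
    obtain ⟨s₀, h3, h4, h5⟩ := gap (SS_finite hg (e - 1) (e + 1)) hsu
    have hs0 : 0 ≤ s₀ := hs.trans h3
    have h6 := NN_mono hg hζ (A := A) (e := e - 1) hs h3
    have h7 := NN_mono hg hζ (A := A) (e := e + 1) hs h3
    have h8 := NN_mono hg hζ (A := A) (e := e) (hs0.trans h4.le) hut
    have h9 := NN_two hg hζ (A := A) hs0 h4 hu h5
    have h10 := NN_three hg hζ (A := A) (e := e) hs0
    have h11 := NN_three hg hζ (A := A) (e := e - 1) hs0
    rw [sub_add_cancel] at h11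
    refine le_trans ?_ h8
    by_contra hlt
    have h12 : ¬ (ζ s₀ e ≤ A ∧ A < ζ s₀ (e + 1)) := by
      intro h13
      rw [if_pos h13] at h9
      rw [if_pos h13.1] at h11
      omega
    rw [if_neg h12] at h9
    have h13 : ζ s₀ e ≤ A := by
      by_contra h14
      rw [if_neg h14] at h11
      omega
    rw [if_pos h13] at h11
    have h14 : ζ s₀ (e + 1) ≤ A := by
      by_contra h15
      exact h12 ⟨h13, not_le.1 h15⟩
    rw [if_pos h14] at h10
    omega

lemma arrE_eq {g : ℕ → ℝ} (hp : ∀ n, 0 < g n) (n : ℕ) :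
    arrE (fun n => ENNReal.ofReal (g n)) n = ENNReal.ofReal (arr g n) := by
  unfold arrE arr
  rw [ENNReal.ofReal_sum_of_nonneg fun i _ => (hp i).le]

lemma nxt_le_iff {g : ℕ → ℝ} (hp : ∀ n, 0 < g n) (hu : ∀ t : ℝ, ∃ n, t < arr g n) (M : ℝ≥0∞)
    {t : ℝ} (ht : 0 ≤ t) :
    nxt (fun n => ENNReal.ofReal (g n)) M ≤ ENNReal.ofReal t ↔
      ∃ u ∈ rings g, u ≤ t ∧ M < ENNReal.ofReal u := by
  constructor
  · intro h
    have hM : M ≠ ⊤ := by
      rintro rfl
      unfold nxt at h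
      simp at h
    have hex : ∃ n, M < ENNReal.ofReal (arr g n) := by
      obtain ⟨n, hn⟩ := hu M.toReal
      exact ⟨n, (ENNReal.lt_ofReal_iff_toReal_lt hM).2 hn⟩
    classical
    have hmin := Nat.find_spec hex
    have hle : ENNReal.ofReal (arr g (Nat.find hex)) ≤
        nxt (fun n => ENNReal.ofReal (g n)) M := by
      unfold nxt
      refine le_iInf₂ fun n hn => ?_
      rw [arrE_eq hp] at hn ⊢
      exact ENNReal.ofReal_le_ofReal ((arr_strictMono hp).monotone (Nat.find_min' hex hn))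
    exact ⟨arr g (Nat.find hex), ⟨_, rfl⟩,
      (ENNReal.ofReal_le_ofReal_iff ht).1 (hle.trans h), hmin⟩
  · rintro ⟨_, ⟨n, rfl⟩, hut, hM⟩
    unfold nxt
    rw [← arrE_eq hp] at hM
    refine (iInf₂_le n hM).trans ?_
    rw [arrE_eq hp]
    exact ENNReal.ofReal_le_ofReal hut

lemma TT_iff {g : ℤ → ℕ → ℝ} (hg : GoodClocks g) {ζ : ℝ → ℤ → ℤ}
    (hζ : IsColoredTASEP (fun k => rings (g k)) ζ) (A : ℤ) (B C : ℕ) :
    ∀ {t : ℝ}, 0 ≤ t → (C ≤ NN ζ A (A + B - C) t ↔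
      TT (fun k => nxt (fun n => ENNReal.ofReal (g k n))) (fun _ _ => False) A B C ≤
        ENNReal.ofReal t) := by
  induction B generalizing C with
  | zero =>
    intro t ht
    have h1 : TT (fun k => nxt (fun n => ENNReal.ofReal (g k n))) (fun _ _ => False) A 0 C = 0 := by
      simp [TT]
    rw [h1]
    refine ⟨fun _ => zero_le, fun _ => ?_⟩
    have h2 := NN_mono hg hζ (A := A) (e := A + (0 : ℕ) - C) le_rfl ht
    rw [NN_zero hζ] at h2
    omega
  | succ B ihB =>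
    induction C with
    | zero =>
      intro t ht
      simp [TT]
    | succ C ihC =>
      intro t ht
      have h1 : TT (fun k => nxt (fun n => ENNReal.ofReal (g k n))) (fun _ _ => False) A
          (B + 1) (C + 1) = nxt (fun n => ENNReal.ofReal (g (A + B - C) n))
            (max (TT (fun k => nxt (fun n => ENNReal.ofReal (g k n))) (fun _ _ => False) A
              B (C + 1))
            (TT (fun k => nxt (fun n => ENNReal.ofReal (g k n))) (fun _ _ => False) A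
              (B + 1) C)) := by
        rw [TT]
        simp
      rw [h1, nxt_le_iff (hg.pos _) (hg.unb _) _ ht]
      have he : A + ((B + 1 : ℕ) : ℤ) - ((C + 1 : ℕ) : ℤ) = A + B - C := by push_cast; ring
      rw [he, key hg hζ (rfl : A + (B : ℤ) - C = A + B - C) ht]
      have e1 : A + (B : ℤ) - C - 1 = A + (B : ℤ) - ((C + 1 : ℕ) : ℤ) := by push_cast; ring
      have e2 : A + (B : ℤ) - C + 1 = A + ((B + 1 : ℕ) : ℤ) - C := by push_cast; ring
      constructor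
      · rintro ⟨u, hu, hut, s, hs, hsu, h2, h3⟩
        refine ⟨u, hu, hut, ?_⟩
        rw [e1] at h2
        rw [e2] at h3
        refine lt_of_le_of_lt (max_le ((ihB (C + 1) hs).1 h2) ((ihC hs).1 h3)) ?_
        exact (ENNReal.ofReal_lt_ofReal_iff (lt_of_le_of_lt hs hsu)).2 hsu
      · rintro ⟨u, hu, hut, hM⟩
        refine ⟨u, hu, hut, ?_⟩
        set M := (max (TT (fun k => nxt (fun n => ENNReal.ofReal (g k n))) (fun _ _ => False) A
              B (C + 1))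
            (TT (fun k => nxt (fun n => ENNReal.ofReal (g k n))) (fun _ _ => False) A
              (B + 1) C)) with hMdef
        have hMt : M ≠ ⊤ := ne_top_of_lt hM
        have h0 : 0 ≤ M.toReal := ENNReal.toReal_nonneg
        have hMs : M ≤ ENNReal.ofReal M.toReal := (ENNReal.ofReal_toReal hMt).ge
        refine ⟨M.toReal, h0, (ENNReal.lt_ofReal_iff_toReal_lt hMt).1 hM, ?_, ?_⟩
        · rw [e1]
          exact (ihB (C + 1) h0).2 ((le_max_left _ _).trans hMs)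
        · rw [e2]
          exact (ihC h0).2 ((le_max_right _ _).trans hMs)

theorem path : Pool.Agent.Y999.ST.StPATH := by
  intro g hg ζ hζ A B C
  set T := TT (fun k => nxt (fun n => ENNReal.ofReal (g k n))) (fun _ _ => False) A B C with hT
  have hmem : ∀ t : ℝ, t ∈ {t : ℝ | 0 ≤ t ∧
      (C : ℕ∞) ≤ {x : ℤ | A + B + 1 - C ≤ x ∧ ζ t x ≤ A}.encard} ↔
      0 ≤ t ∧ T ≤ ENNReal.ofReal t := by
    intro t
    simp only [Set.mem_ofPred_eq]
    refine and_congr_right fun ht => ?_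
    rw [hT, ← TT_iff hg hζ A B C ht]
    have hset : {x : ℤ | A + B + 1 - C ≤ x ∧ ζ t x ≤ A} =
        {x : ℤ | A + B - C < x ∧ ζ t x ≤ A} := by
      ext x
      simp only [Set.mem_ofPred_eq]
      constructor
      · rintro ⟨h1, h2⟩
        exact ⟨by omega, h2⟩
      · rintro ⟨h1, h2⟩
        exact ⟨by omega, h2⟩
    rw [hset, ← (NN_fin hg hζ (A := A) ht (A + B - C)).cast_ncard_eq]
    unfold NN
    exact Nat.cast_le
  apply le_antisymm
  · by_cases hTt : T = ⊤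
    · rw [hTt]
      exact le_top
    · have h1 : T.toReal ∈ {t : ℝ | 0 ≤ t ∧
          (C : ℕ∞) ≤ {x : ℤ | A + B + 1 - C ≤ x ∧ ζ t x ≤ A}.encard} :=
        (hmem _).2 ⟨ENNReal.toReal_nonneg, (ENNReal.ofReal_toReal hTt).ge⟩
      have h2 := iInf₂_le (f := fun (t : ℝ) (_ : t ∈ {t : ℝ | 0 ≤ t ∧
          (C : ℕ∞) ≤ {x : ℤ | A + B + 1 - C ≤ x ∧ ζ t x ≤ A}.encard}) => ENNReal.ofReal t) _ h1
      refine h2.trans ?_
      rw [ENNReal.ofReal_toReal hTt]
  · unfold passage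
    refine le_iInf₂ fun t ht => ?_
    exact ((hmem t).1 ht).2

end Pool.Agent.Y285.ST
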